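import Pool.Agent.Helper188.Morrey.Transport
import Pool.Agent.Helper188.Morrey.Mesh

set_option autoImplicit false

open MeasureTheory Pool.Agent.Helper188.Morrey

namespace Pool.Agent.Results.MP_515557_an.ZeroInEveryTriangle

/-- Rank-one convex functions on real `2 × 2` matrices satisfy the quasiconvexity inequality

(1) for every Lipschitz test map `ϑ` whose Jacobian admits a transport plan `π` from its positive
part to its negative part along rank-one connections;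

(2) for every finite element test map for which, after correction by a potential `c` vanishing
where the map does, the three side numbers of each triangle have one sign;

(3) in particular for every finite element test map with a zero in every triangle. -/
theorem result (W : Matrix (Fin 2) (Fin 2) ℝ → ℝ) (hW : RankOneConvex W)
    (F₀ : Matrix (Fin 2) (Fin 2) ℝ) :
    (∀ Ω : Set (Fin 2 → ℝ), IsOpen Ω → Bornology.IsBounded Ω →
      ∀ ϑ : (Fin 2 → ℝ) → (Fin 2 → ℝ), (∃ K, LipschitzWith K ϑ) → (∀ x, x ∉ Ω → ϑ x = 0) →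
      (∃ π : Measure ((Fin 2 → ℝ) × (Fin 2 → ℝ)),
        π.map Prod.fst = (volume.restrict Ω).withDensity
          (fun x => ENNReal.ofReal (grad ϑ x).det) ∧
        π.map Prod.snd = (volume.restrict Ω).withDensity
          (fun x => ENNReal.ofReal (-(grad ϑ x).det)) ∧
        ∀ᵐ p ∂π, (grad ϑ p.1 - grad ϑ p.2).rank ≤ 1) →
      W F₀ * (volume Ω).toReal ≤ ∫ x in Ω, W (F₀ + grad ϑ x)) ∧
    (∀ (V ι : Type) [Fintype ι] (P θ : V → (Fin 2 → ℝ)) (t : ι → Fin 3 → V)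
      (σ : ι × Fin 3 → ι × Fin 3) (G : ι → Matrix (Fin 2) (Fin 2) ℝ), IsMesh P θ t σ G →
      ∀ c : V → ℝ, (∀ i, θ i = 0 → c i = 0) →
      (∀ T, (∀ m, 0 ≤ flow θ t c T m) ∨ (∀ m, flow θ t c T m ≤ 0)) →
      ∑ T, (ar P t T / 2) * W F₀ ≤ ∑ T, (ar P t T / 2) * W (F₀ + G T)) ∧
    (∀ (V ι : Type) [Fintype ι] (P θ : V → (Fin 2 → ℝ)) (t : ι → Fin 3 → V)
      (σ : ι × Fin 3 → ι × Fin 3) (G : ι → Matrix (Fin 2) (Fin 2) ℝ), IsMesh P θ t σ G →
      (∀ T, ∃ s : Fin 3 → ℝ, (∀ m, 0 ≤ s m) ∧ ∑ m, s m = 1 ∧ ∑ m, s m • θ (t T m) = 0) →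
      ∑ T, (ar P t T / 2) * W F₀ ≤ ∑ T, (ar P t T / 2) * W (F₀ + G T)) := by
  have key : ∀ (V ι : Type) [Fintype ι] (P θ : V → (Fin 2 → ℝ)) (t : ι → Fin 3 → V)
      (σ : ι × Fin 3 → ι × Fin 3) (G : ι → Matrix (Fin 2) (Fin 2) ℝ), IsMesh P θ t σ G →
      ∀ c : V → ℝ, (∀ i, θ i = 0 → c i = 0) →
      (∀ T, (∀ m, 0 ≤ flow θ t c T m) ∨ (∀ m, flow θ t c T m ≤ 0)) →
      ∑ T, (ar P t T / 2) * W F₀ ≤ ∑ T, (ar P t T / 2) * W (F₀ + G T) := by
    intro V ι _ P θ t σ G h c hc hs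
    have h1 := mesh_ineq h c hc hs hW F₀
    have h2 : ∑ T, ar P t T * (W (F₀ + G T) - W F₀)
        = 2 * (∑ T, (ar P t T / 2) * W (F₀ + G T) - ∑ T, (ar P t T / 2) * W F₀) := by
      rw [← Finset.sum_sub_distrib, Finset.mul_sum]
      exact Finset.sum_congr rfl fun T _ => by ring
    rw [h2] at h1
    linarith
  refine ⟨?_, key, ?_⟩
  · rintro Ω hΩ hb ϑ ⟨K, hK⟩ h0 ⟨π, h1, h2, h3⟩
    exact transport_ineq hW F₀ hK hΩ hb h0 π h1 h2 h3
  · intro V ι _ P θ t σ G h hz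
    refine key V ι P θ t σ G h 0 (fun _ _ => rfl) fun T => ?_
    obtain ⟨s, hs, h1, h0⟩ := hz T
    exact sign_of_zero θ t T s hs h1 h0

end Pool.Agent.Results.MP_515557_an.ZeroInEveryTriangle
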